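import Mathlib

set_option autoImplicit false

open Set Filter TopologicalSpace

namespace Pool.Agent.Results.MP_cf3fbb_gt.NoSigmaCompact

/-!
The example.  Let `(f a)` be a well-ordered unbounded scale in `(ℕ → ℕ, ≤*)` of length `𝔟`.  In the
compact space `W` of pairs `(x, z)` of sequences in `ℕ ∪ {∞}` let `BW` be the set of pairs such that
`z` is finite everywhere if `x` is, and let `XW` consist of all pairs with some `x n = ∞` together
with the compact sets `K l`, for the indices `l` of cofinality `ω`.  A ladder `L l 0, L l 1, …` of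
`l` is fixed; a point of `K l` is a pair `(x, z)` where `x` runs through the blocks
`f (L l 0), f (L l 1), …` (the next block starting at the next element of a set `c`) and `z` is `0`
except that `z n = f l n` at the elements `n` of a set `a`, there being an element of `c` between any
two elements of `a`.  The Hurewicz property follows since all but fewer than `𝔟` of the `K l` are,
up to countably many points for each index, inside one `σ`-compact set.  If a `σ`-compact set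
`F ⊆ BW` contained `XW`, a closing off argument gives an `l` such that `f l` is not dominated by the
local bounds of `F` at the finite block sequences of `l`, and a point of `K l` outside `F` is built
by recursion.
-/

/-! ### A well-ordered unbounded scale -/

theorem exists_scale : ∃ (ι : Type) (_ : LinearOrder ι) (_ : WellFoundedLT ι) (f : ι → ℕ → ℕ),
    (∀ a b, a < b → f a ≤ᶠ[atTop] f b) ∧ (∀ g : ℕ → ℕ, ∃ a, ¬ f a ≤ᶠ[atTop] g) ∧
    (∀ (a : ι) (h : ι → ℕ → ℕ), ∃ g : ℕ → ℕ, ∀ b ≤ a, h b ≤ᶠ[atTop] g) := by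
  classical
  let P : Set Cardinal.{0} := {c | ∃ (α : Type) (h : α → ℕ → ℕ), Cardinal.mk α = c ∧
    ∀ g : ℕ → ℕ, ∃ a, ¬ h a ≤ᶠ[atTop] g}
  have hP : P.Nonempty := by
    refine ⟨Cardinal.mk (ℕ → ℕ), (ℕ → ℕ), id, rfl, fun g => ⟨fun n => g n + 1, ?_⟩⟩
    intro hcon
    obtain ⟨n, hn⟩ := hcon.exists
    simp at hn
  obtain ⟨c, ⟨α, h, hc, hunb⟩, hmin⟩ := WellFounded.has_min Cardinal.lt_wf P hP
  have hbdd : ∀ (β : Type) (k : β → ℕ → ℕ), Cardinal.mk β < c →
      ∃ g : ℕ → ℕ, ∀ b, k b ≤ᶠ[atTop] g := by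
    intro β k hβ
    by_contra hcon
    push Not at hcon
    exact hmin _ ⟨β, k, rfl, hcon⟩ hβ
  have heq : Cardinal.mk c.ord.ToType = Cardinal.mk α := by
    rw [Cardinal.mk_ord_toType, hc]
  obtain ⟨e⟩ := Cardinal.eq.1 heq
  have hsmall : ∀ (a : c.ord.ToType) (k : c.ord.ToType → ℕ → ℕ),
      ∃ g : ℕ → ℕ, ∀ b < a, k b ≤ᶠ[atTop] g := by
    intro a k
    obtain ⟨g, hg⟩ := hbdd (Iio a) (fun b => k b) (Cardinal.mk_Iio_toType_ord_lt a)
    exact ⟨g, fun b hb => hg ⟨b, hb⟩⟩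
  have hsmall' : ∀ (a : c.ord.ToType) (k : c.ord.ToType → ℕ → ℕ),
      ∃ g : ℕ → ℕ, ∀ b ≤ a, k b ≤ᶠ[atTop] g := by
    intro a k
    obtain ⟨g, hg⟩ := hsmall a k
    refine ⟨fun n => max (g n) (k a n), fun b hb => ?_⟩
    rcases hb.lt_or_eq with hb | rfl
    · filter_upwards [hg b hb] with n hn using hn.trans (le_max_left _ _)
    · filter_upwards with n using le_max_right _ _
  -- recursive choice
  have hrec : ∀ (a : c.ord.ToType) (F : ∀ b, b < a → (ℕ → ℕ)),
      ∃ g : ℕ → ℕ, (∀ b (hb : b < a), F b hb ≤ᶠ[atTop] g) ∧ h (e a) ≤ᶠ[atTop] g := by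
    intro a F
    obtain ⟨g, hg⟩ := hsmall a (fun b => if hb : b < a then F b hb else 0)
    refine ⟨fun n => max (g n) (h (e a) n), fun b hb => ?_, ?_⟩
    · have := hg b hb
      rw [dif_pos hb] at this
      filter_upwards [this] with n hn using hn.trans (le_max_left _ _)
    · filter_upwards with n using le_max_right _ _
  choose G hG1 hG2 using hrec
  let f : c.ord.ToType → ℕ → ℕ := fun a => (wellFounded_lt (α := c.ord.ToType)).fix G a
  have hf : ∀ a, f a = G a (fun b _ => f b) := fun a => WellFounded.fix_eq _ _ _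
  refine ⟨c.ord.ToType, inferInstance, inferInstance, f, ?_, ?_, hsmall'⟩
  · intro a b hab
    rw [hf b]
    exact hG1 b (fun b _ => f b) a hab
  · intro g
    obtain ⟨a, ha⟩ := hunb g
    refine ⟨e.symm a, fun hcon => ha ?_⟩
    have h1 : h (e (e.symm a)) ≤ᶠ[atTop] f (e.symm a) := by
      rw [hf (e.symm a)]
      exact hG2 _ _
    rw [e.apply_symm_apply] at h1
    exact h1.trans hcon

theorem countable_bound (h : ℕ → ℕ → ℕ) : ∃ g : ℕ → ℕ, ∀ k, h k ≤ᶠ[atTop] g := by
  refine ⟨fun n => (Finset.range (n + 1)).sup (fun k => h k n), fun k => ?_⟩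
  filter_upwards [eventually_ge_atTop k] with n hn
  exact Finset.le_sup (f := fun k => h k n) (Finset.mem_range.2 (Nat.lt_succ_of_le hn))

theorem countable_evEq (g : ℕ → ℕ) : {x : ℕ → ℕ | x =ᶠ[atTop] g}.Countable := by
  classical
  let T : ℕ × (ℕ →₀ ℕ) → (ℕ → ℕ) := fun p n => if n < p.1 then p.2 n else g n
  refine (countable_range T).mono ?_
  intro x hx
  obtain ⟨N, hN⟩ := eventually_atTop.1 hx
  refine ⟨(N, Finsupp.onFinset (Finset.range N) (fun n => if n < N then x n else 0) ?_), ?_⟩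
  · intro n hn
    by_contra hcon
    rw [Finset.mem_range] at hcon
    exact hn (if_neg hcon)
  · funext n
    by_cases hn : n < N
    · simp [T, hn]
    · simp [T, hn, hN n (not_lt.1 hn)]

/-- The compact space in which the example is built. -/
abbrev W : Type := (ℕ → ℕ∞) × (ℕ → ℕ∞)

/-- The points all of whose first coordinates are finite have finite second coordinates. -/
def BW : Set W := {p | (∀ n, p.1 n ≠ ⊤) → ∀ n, p.2 n ≠ ⊤}

/-- The `σ`-compact part. -/
def EW : Set W := {p | ∃ n, p.1 n = ⊤}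

/-- number of `i < n` with `c i`. -/
def cnt (c : ℕ → Bool) : ℕ → ℕ
  | 0 => 0
  | n + 1 => cnt c n + (if c n = true then 1 else 0)

theorem cnt_mono (c : ℕ → Bool) : Monotone (cnt c) := by
  refine monotone_nat_of_le_succ (fun n => ?_)
  simp [cnt]

theorem cnt_congr {c d : ℕ → Bool} {n : ℕ} (h : ∀ i < n, c i = d i) : cnt c n = cnt d n := by
  induction n with
  | zero => rfl
  | succ n ih =>
    simp only [cnt]
    rw [ih (fun i hi => h i (by omega)), h n (by omega)]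

theorem cnt_of_false {c : ℕ → Bool} {N : ℕ} (h : ∀ i, N ≤ i → c i = false) (n : ℕ) (hn : N ≤ n) :
    cnt c n = cnt c N := by
  induction n, hn using Nat.le_induction with
  | base => rfl
  | succ n hn ih => simp [cnt, ih, h n hn]

theorem cnt_tendsto {c : ℕ → Bool} (h : ∀ N, ∃ m, N ≤ m ∧ c m = true) (k : ℕ) :
    ∃ n, k ≤ cnt c n := by
  induction k with
  | zero => exact ⟨0, Nat.zero_le _⟩
  | succ k ih =>
    obtain ⟨n, hn⟩ := ih
    obtain ⟨m, hm, hcm⟩ := h n
    refine ⟨m + 1, ?_⟩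
    have := cnt_mono c hm
    simp only [cnt, hcm, if_true]
    omega

theorem continuous_cnt (n : ℕ) : Continuous (fun c : ℕ → Bool => cnt c n) := by
  induction n with
  | zero => exact continuous_const
  | succ n ih =>
    have h1 : Continuous (fun c : ℕ → Bool => (if c n = true then 1 else 0 : ℕ)) :=
      (continuous_of_discreteTopology (f := fun b : Bool => (if b = true then 1 else 0 : ℕ))).comp
        (continuous_apply n)
    exact ih.add h1

section
variable {ι : Type} [LinearOrder ι] (f : ι → ℕ → ℕ) (L : ι → ℕ → ι)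

/-- the block functions -/
def G (l : ι) (k n : ℕ) : ℕ := (Finset.range (k + 1)).sup (fun j => f (L l j) n)

def X1 (l : ι) (c : ℕ → Bool) (n : ℕ) : ℕ := G f L l (cnt c (n + 1)) n

def Z1 (l : ι) (a : ℕ → Bool) (n : ℕ) : ℕ := if a n = true then f l n else 0

def Dl : Set ((ℕ → Bool) × (ℕ → Bool)) :=
  {p | ∀ i j, i < j → p.1 i = true → p.1 j = true → ∃ m, i ≤ m ∧ m < j ∧ p.2 m = true}

def pt (l : ι) (p : (ℕ → Bool) × (ℕ → Bool)) : W :=
  (fun n => (X1 f L l p.2 n : ℕ∞), fun n => (Z1 f l p.1 n : ℕ∞))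

/-- the compact pieces -/
def K (l : ι) : Set W := pt f L l '' Dl

/-- `L l` is a ladder converging to `l`. -/
def good (l : ι) : Prop := (∀ k, L l k < l) ∧ ∀ b < l, ∃ k, b ≤ L l k

def XW : Set W := EW ∪ ⋃ l ∈ {l | good L l}, K f L l

theorem isClosed_Dl : IsClosed Dl := by
  have : Dl = ⋂ i, ⋂ j, {p : (ℕ → Bool) × (ℕ → Bool) | i < j → p.1 i = true → p.1 j = true →
      ∃ m, i ≤ m ∧ m < j ∧ p.2 m = true} := by
    ext p
    simp [Dl]
  rw [this]
  refine isClosed_iInter fun i => isClosed_iInter fun j => ?_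
  by_cases hij : i < j
  · have h2 : {p : (ℕ → Bool) × (ℕ → Bool) | i < j → p.1 i = true → p.1 j = true →
      ∃ m, i ≤ m ∧ m < j ∧ p.2 m = true} = ({p | p.1 i = false} ∪ {p | p.1 j = false}) ∪
        ⋃ m ∈ Finset.Ico i j, {p | p.2 m = true} := by
      ext p
      simp only [mem_ofPred_eq, mem_union, mem_iUnion, Finset.mem_Ico, exists_prop]
      constructor
      · intro h
        by_cases h1 : p.1 i = true
        · by_cases h2 : p.1 j = true
          · obtain ⟨m, h3, h4, h5⟩ := h hij h1 h2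
            exact Or.inr ⟨m, ⟨h3, h4⟩, h5⟩
          · exact Or.inl (Or.inr (by simpa using h2))
        · exact Or.inl (Or.inl (by simpa using h1))
      · rintro ((h | h) | ⟨m, ⟨h3, h4⟩, h5⟩) - h1 h2
        · rw [h] at h1; cases h1
        · rw [h] at h2; cases h2
        · exact ⟨m, h3, h4, h5⟩
    rw [h2]
    refine ((isClosed_eq ((continuous_apply i).comp continuous_fst) continuous_const).union
      (isClosed_eq ((continuous_apply j).comp continuous_fst) continuous_const)).union ?_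
    exact isClosed_biUnion_finset fun m _ =>
      isClosed_eq ((continuous_apply m).comp continuous_snd) continuous_const
  · have h2 : {p : (ℕ → Bool) × (ℕ → Bool) | i < j → p.1 i = true → p.1 j = true →
      ∃ m, i ≤ m ∧ m < j ∧ p.2 m = true} = univ := by
      ext p
      simp [hij]
    rw [h2]
    exact isClosed_univ

omit [LinearOrder ι] in
theorem continuous_pt (l : ι) : Continuous (pt f L l) := by
  refine Continuous.prodMk (continuous_pi fun n => ?_) (continuous_pi fun n => ?_)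
  · exact (continuous_of_discreteTopology (f := fun k : ℕ => ((G f L l k n : ℕ) : ℕ∞))).comp
      ((continuous_cnt (n + 1)).comp continuous_snd)
  · exact (continuous_of_discreteTopology
      (f := fun b : Bool => (((if b = true then f l n else 0 : ℕ)) : ℕ∞))).comp
      ((continuous_apply n).comp continuous_fst)

omit [LinearOrder ι] in
theorem isCompact_K (l : ι) : IsCompact (K f L l) :=
  isClosed_Dl.isCompact.image (continuous_pt f L l)

theorem XW_subset_BW : XW f L ⊆ BW := by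
  rintro p (⟨n, hn⟩ | hp)
  · intro h
    exact absurd hn (h n)
  · simp only [mem_iUnion] at hp
    obtain ⟨l, -, q, -, rfl⟩ := hp
    intro _ n
    exact ENat.natCast_ne_top _

end

theorem exists_bound_of_isCompact {R : Set W} (hR : IsCompact R) {φ : W → ℕ∞}
    (hφ : Continuous φ) (h : ∀ p ∈ R, φ p ≠ ⊤) : ∃ v : ℕ, ∀ p ∈ R, φ p ≤ v := by
  rcases R.eq_empty_or_nonempty with rfl | hne
  · exact ⟨0, fun p hp => absurd hp (notMem_empty p)⟩
  · obtain ⟨q, hq, hmax⟩ := hR.exists_isMaxOn hne hφ.continuousOn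
    obtain ⟨v, hv⟩ := ENat.ne_top_iff_exists.1 (h q hq)
    exact ⟨v, fun p hp => by rw [hv]; exact hmax hp⟩

theorem exists_of_isCompact_subset {T : Set W} (hT : IsCompact T) {U : ℕ → Set W}
    (hU : ∀ m, IsOpen (U m)) (hmono : Monotone U) (h : T ⊆ ⋃ m, U m) : ∃ m, T ⊆ U m := by
  obtain ⟨m, hm⟩ := hT.elim_directed_cover U hU h hmono.directed_le
  exact ⟨m, hm⟩


section
variable {ι : Type} [LinearOrder ι] (f : ι → ℕ → ℕ) (L : ι → ℕ → ι)

theorem G_eventually (hmono : ∀ a b, a < b → f a ≤ᶠ[atTop] f b) {l : ι} (hl : good L l) (k : ℕ) :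
    ∃ g, g < l ∧ ∀ᶠ n in atTop, G f L l k n = f g n := by
  induction k with
  | zero => exact ⟨L l 0, hl.1 0, by filter_upwards with n; simp [G]⟩
  | succ k ih =>
    obtain ⟨g, hg, hgn⟩ := ih
    have hstep : ∀ n, G f L l (k + 1) n = max (f (L l (k + 1)) n) (G f L l k n) := by
      intro n
      simp only [G]
      rw [Finset.range_add_one (n := k + 1), Finset.sup_insert]
    rcases lt_trichotomy g (L l (k + 1)) with h | h | h
    · refine ⟨L l (k + 1), hl.1 _, ?_⟩
      filter_upwards [hgn, hmono _ _ h] with n h1 h2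
      rw [hstep, h1]
      exact max_eq_left h2
    · refine ⟨g, hg, ?_⟩
      filter_upwards [hgn] with n h1
      rw [hstep, h1, ← h, max_self]
    · refine ⟨g, hg, ?_⟩
      filter_upwards [hgn, hmono _ _ h] with n h1 h2
      rw [hstep, h1]
      exact max_eq_right h2

theorem le_X1_of_infinite (hmono : ∀ a b, a < b → f a ≤ᶠ[atTop] f b) {l b : ι} (hl : good L l)
    (hb : b < l) {c : ℕ → Bool} (hc : ∀ N, ∃ m, N ≤ m ∧ c m = true) :
    ∀ᶠ n in atTop, f b n ≤ X1 f L l c n := by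
  obtain ⟨j, hj⟩ := hl.2 b hb
  obtain ⟨N, hN⟩ := cnt_tendsto hc j
  have h1 : f b ≤ᶠ[atTop] f (L l j) := by
    rcases hj.lt_or_eq with h | h
    · exact hmono _ _ h
    · rw [h]
  filter_upwards [h1, eventually_ge_atTop N] with n h2 h3
  refine h2.trans ?_
  have h4 : j ≤ cnt c (n + 1) := hN.trans (cnt_mono c (by omega))
  exact Finset.le_sup (f := fun j => f (L l j) n) (Finset.mem_range.2 (Nat.lt_succ_of_le h4))

theorem hurewicz_crit (hmono : ∀ a b, a < b → f a ≤ᶠ[atTop] f b)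
    (hunb : ∀ g : ℕ → ℕ, ∃ a, ¬ f a ≤ᶠ[atTop] g)
    (hsmall : ∀ (a : ι) (h : ι → ℕ → ℕ), ∃ g : ℕ → ℕ, ∀ b ≤ a, h b ≤ᶠ[atTop] g)
    (U : ℕ → ℕ → Set W) (hUo : ∀ n m, IsOpen (U n m)) (hUm : ∀ n, Monotone (U n))
    (hcov : ∀ n, XW f L ⊆ ⋃ m, U n m) :
    ∃ k : ℕ → ℕ, ∀ p ∈ XW f L, ∀ᶠ n in atTop, p ∈ U n (k n) := by
  classical
  -- bounds for the first coordinates outside the open sets
  have hg : ∀ n i, ∃ v : ℕ, ∀ p ∈ (⋃ m, U n m)ᶜ, p.1 i ≤ v := by
    intro n i
    have hR : IsCompact (⋃ m, U n m)ᶜ := (isOpen_iUnion (hUo n)).isClosed_compl.isCompact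
    refine exists_bound_of_isCompact hR ((continuous_apply i).comp continuous_fst) ?_
    intro p hp htop
    exact hp (hcov n (Or.inl ⟨i, htop⟩))
  choose g hg using hg
  obtain ⟨gt, hgt⟩ := countable_bound g
  obtain ⟨l1, hl1⟩ := hunb gt
  have hl1' : ∃ᶠ i in atTop, gt i < f l1 i := by
    intro hcon
    refine hl1 ?_
    filter_upwards [hcon] with i hi
    exact not_lt.1 hi
  -- the closed sets F2
  let F2 : ℕ → Set W := fun j => {p | ∀ i, j ≤ i → gt i < f l1 i → ((gt i + 1 : ℕ) : ℕ∞) ≤ p.1 i}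
  have hF2c : ∀ j, IsClosed (F2 j) := by
    intro j
    have : F2 j = ⋂ i, {p : W | j ≤ i → gt i < f l1 i → ((gt i + 1 : ℕ) : ℕ∞) ≤ p.1 i} := by
      ext p
      simp [F2]
    rw [this]
    refine isClosed_iInter fun i => ?_
    by_cases h1 : j ≤ i
    · by_cases h2 : gt i < f l1 i
      · have : {p : W | j ≤ i → gt i < f l1 i → ((gt i + 1 : ℕ) : ℕ∞) ≤ p.1 i} =
          {p : W | ((gt i + 1 : ℕ) : ℕ∞) ≤ p.1 i} := by
          ext p
          simp [h1, h2]
        rw [this]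
        exact isClosed_le continuous_const ((continuous_apply i).comp continuous_fst)
      · have : {p : W | j ≤ i → gt i < f l1 i → ((gt i + 1 : ℕ) : ℕ∞) ≤ p.1 i} = univ := by
          ext p
          simp [h2]
        rw [this]
        exact isClosed_univ
    · have : {p : W | j ≤ i → gt i < f l1 i → ((gt i + 1 : ℕ) : ℕ∞) ≤ p.1 i} = univ := by
        ext p
        simp [h1]
      rw [this]
      exact isClosed_univ
  have hF2U : ∀ j n, F2 j ⊆ ⋃ m, U n m := by
    intro j n p hp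
    by_contra hcon
    obtain ⟨i, hi1, hi2, hi3⟩ := (hl1'.and_eventually ((hgt n).and (eventually_ge_atTop j))).exists
    have h1 : ((gt i + 1 : ℕ) : ℕ∞) ≤ p.1 i := hp i hi3 hi1
    have h2 : p.1 i ≤ (g n i : ℕ∞) := hg n i p hcon
    have h3 : gt i + 1 ≤ g n i := by exact_mod_cast h1.trans h2
    have h4 : g n i ≤ gt i := hi2
    omega
  -- the compact sets S
  let S : ℕ → Set W := fun n => (⋃ i ∈ Finset.range (n + 1), {p : W | p.1 i = ⊤}) ∪ F2 n
  have hSc : ∀ n, IsCompact (S n) := by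
    intro n
    refine IsClosed.isCompact (IsClosed.union ?_ (hF2c n))
    exact isClosed_biUnion_finset fun i _ =>
      isClosed_eq ((continuous_apply i).comp continuous_fst) continuous_const
  have hSU : ∀ n, ∃ m, S n ⊆ U n m := by
    intro n
    refine exists_of_isCompact_subset (hSc n) (hUo n) (hUm n) (union_subset ?_ (hF2U n n))
    intro p hp
    simp only [mem_iUnion, Finset.mem_range, exists_prop] at hp
    obtain ⟨i, -, hi⟩ := hp
    exact hcov n (Or.inl ⟨i, hi⟩)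
  choose k1 hk1 using hSU
  -- the compact pieces
  have hK : ∀ l n, ∃ m, good L l → K f L l ⊆ U n m := by
    intro l n
    by_cases hl : good L l
    · obtain ⟨m, hm⟩ := exists_of_isCompact_subset (isCompact_K f L l) (hUo n) (hUm n)
        (fun p hp => hcov n (Or.inr (mem_biUnion (show l ∈ {l | good L l} from hl) hp)))
      exact ⟨m, fun _ => hm⟩
    · exact ⟨0, fun h => absurd h hl⟩
  choose mu hmu using hK
  -- the countable pieces
  let D : ι → Set W := fun b => {p | ∃ x z : ℕ → ℕ, x =ᶠ[atTop] f b ∧ z =ᶠ[atTop] (fun _ => 0) ∧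
    p = ((fun n => (x n : ℕ∞)), (fun n => (z n : ℕ∞)))}
  have hD : ∀ b, ∃ d : ℕ → W, D b = range d := by
    intro b
    refine Set.Countable.exists_eq_range ?_ ?_
    · refine (((countable_evEq (f b)).prod (countable_evEq (fun _ => 0))).image
        (fun q : (ℕ → ℕ) × (ℕ → ℕ) => (((fun n => (q.1 n : ℕ∞)), (fun n => (q.2 n : ℕ∞))) : W))).mono
        ?_
      rintro p ⟨x, z, hx, hz, rfl⟩
      exact ⟨(x, z), ⟨hx, hz⟩, rfl⟩
    · exact ⟨_, f b, fun _ => 0, EventuallyEq.rfl, EventuallyEq.rfl, rfl⟩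
  choose d hd using hD
  have hnu : ∀ b m n, ∃ v, d b m ∈ XW f L → d b m ∈ U n v := by
    intro b m n
    by_cases h : d b m ∈ XW f L
    · obtain ⟨v, hv⟩ := mem_iUnion.1 (hcov n h)
      exact ⟨v, fun _ => hv⟩
    · exact ⟨0, fun h' => absurd h' h⟩
  choose nu hnu using hnu
  -- combine
  have hcomb : ∀ b, ∃ h : ℕ → ℕ, mu b ≤ᶠ[atTop] h ∧ ∀ m, nu b m ≤ᶠ[atTop] h := by
    intro b
    obtain ⟨h, hh⟩ := countable_bound (fun m => Nat.rec (mu b) (fun m _ => nu b m) m)
    exact ⟨h, hh 0, fun m => hh (m + 1)⟩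
  choose h hh1 hh2 using hcomb
  obtain ⟨k2, hk2⟩ := hsmall l1 h
  refine ⟨fun n => max (k1 n) (k2 n), ?_⟩
  -- points of F2
  have hF2mem : ∀ p, (∀ᶠ i in atTop, gt i < f l1 i → ((gt i + 1 : ℕ) : ℕ∞) ≤ p.1 i) →
      ∀ᶠ n in atTop, p ∈ U n (max (k1 n) (k2 n)) := by
    intro p hp
    obtain ⟨N, hN⟩ := eventually_atTop.1 hp
    filter_upwards [eventually_ge_atTop N] with n hn
    exact hUm n (le_max_left _ _) (hk1 n (Or.inr (fun i hi => hN i (hn.trans hi))))
  have hX1mem : ∀ (l : ι) (q : (ℕ → Bool) × (ℕ → Bool)), (∀ᶠ n in atTop, f l1 n ≤ X1 f L l q.2 n) →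
      ∀ᶠ n in atTop, pt f L l q ∈ U n (max (k1 n) (k2 n)) := by
    intro l q hq
    refine hF2mem _ ?_
    filter_upwards [hq] with i hi hlt
    show ((gt i + 1 : ℕ) : ℕ∞) ≤ (X1 f L l q.2 i : ℕ∞)
    exact_mod_cast (Nat.succ_le_of_lt hlt).trans hi
  intro p hp
  have hpX := hp
  rcases hp with ⟨i, hi⟩ | hp
  · filter_upwards [eventually_ge_atTop i] with n hn
    refine hUm n (le_max_left _ _) (hk1 n (Or.inl ?_))
    simp only [mem_iUnion, Finset.mem_range, exists_prop]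
    exact ⟨i, by omega, hi⟩
  · simp only [mem_iUnion, exists_prop] at hp
    obtain ⟨l, hl, hpl⟩ := hp
    have hl : good L l := hl
    rcases le_or_gt l l1 with hle | hlt
    · filter_upwards [(hh1 l).trans (hk2 l hle)] with n hn
      exact hUm n (hn.trans (le_max_right _ _)) (hmu l n hl hpl)
    · obtain ⟨q, hq, rfl⟩ := hpl
      by_cases hinf : ∀ N, ∃ m, N ≤ m ∧ q.2 m = true
      · exact hX1mem l q (le_X1_of_infinite f L hmono hl hlt hinf)
      · push Not at hinf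
        obtain ⟨N, hN⟩ := hinf
        have hN' : ∀ m, N ≤ m → q.2 m = false := fun m hm => by simpa using hN m hm
        obtain ⟨b, hb, hbn⟩ := G_eventually f L hmono hl (cnt q.2 N)
        have hx : ∀ᶠ n in atTop, X1 f L l q.2 n = f b n := by
          filter_upwards [hbn, eventually_ge_atTop N] with n h1 h2
          rw [X1, cnt_of_false hN' (n + 1) (by omega), h1]
        have hz : ∀ᶠ n in atTop, Z1 f l q.1 n = 0 := by
          by_cases hex : ∃ i, N ≤ i ∧ q.1 i = true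
          · obtain ⟨i, hi, hqi⟩ := hex
            filter_upwards [eventually_gt_atTop i] with n hn
            have : q.1 n ≠ true := by
              intro hcon
              obtain ⟨m, h1, h2, h3⟩ := hq i n hn hqi hcon
              rw [hN' m (hi.trans h1)] at h3
              cases h3
            simp [Z1, this]
          · push Not at hex
            filter_upwards [eventually_ge_atTop N] with n hn
            simp [Z1, hex n hn]
        rcases le_or_gt b l1 with hb1 | hb1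
        · have hmem : pt f L l q ∈ D b := ⟨X1 f L l q.2, Z1 f l q.1, hx, hz, rfl⟩
          rw [hd b] at hmem
          obtain ⟨m, hm⟩ := hmem
          filter_upwards [(hh2 b m).trans (hk2 b hb1)] with n hn
          refine hUm n (hn.trans (le_max_right _ _)) ?_
          rw [← hm]
          exact hnu b m n (hm ▸ hpX)
        · refine hX1mem l q ?_
          filter_upwards [hx, hmono _ _ hb1] with n h1 h2
          rw [h1]
          exact h2

end


theorem exists_V {F : ℕ → Set W} (hF : ∀ j, IsCompact (F j)) (hB : ∀ j, F j ⊆ BW)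
    (q : ℕ → ℕ) (n : ℕ) :
    ∃ v : ℕ, ∀ j ≤ n, ∀ p ∈ F j, (∀ i < v, p.1 i = (q i : ℕ∞)) → p.2 n < (v : ℕ∞) := by
  have hone : ∀ j, ∃ v : ℕ, ∀ p ∈ F j, (∀ i < v, p.1 i = (q i : ℕ∞)) → p.2 n < (v : ℕ∞) := by
    intro j
    by_contra hcon
    push Not at hcon
    let C : ℕ → Set W := fun v => F j ∩ ({p | ∀ i < v, p.1 i = (q i : ℕ∞)} ∩ {p | (v : ℕ∞) ≤ p.2 n})
    have hCc : ∀ v, IsClosed (C v) := by
      intro v
      refine (hF j).isClosed.inter (IsClosed.inter ?_ ?_)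
      · have : {p : W | ∀ i < v, p.1 i = (q i : ℕ∞)} =
            ⋂ i ∈ Finset.range v, {p : W | p.1 i = (q i : ℕ∞)} := by
          ext p
          simp
        rw [this]
        exact isClosed_biInter fun i _ =>
          isClosed_eq ((continuous_apply i).comp continuous_fst) continuous_const
      · exact isClosed_le continuous_const ((continuous_apply n).comp continuous_snd)
    obtain ⟨p, hp⟩ := IsCompact.nonempty_iInter_of_sequence_nonempty_isCompact_isClosed C
      (by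
        rintro v p ⟨h1, h2, h3⟩
        refine ⟨h1, fun i hi => h2 i (by omega), ?_⟩
        have h4 : (v : ℕ∞) ≤ ((v + 1 : ℕ) : ℕ∞) := by exact_mod_cast Nat.le_succ v
        exact h4.trans h3)
      (by
        intro v
        obtain ⟨p, h1, h2, h3⟩ := hcon v
        exact ⟨p, h1, h2, h3⟩)
      ((hF j).of_isClosed_subset (hCc 0) inter_subset_left) hCc
    rw [mem_iInter] at hp
    have h1 : ∀ i, p.1 i ≠ ⊤ := by
      intro i
      rw [(hp (i + 1)).2.1 i (Nat.lt_succ_self i)]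
      exact ENat.natCast_ne_top _
    have h2 : p.2 n ≠ ⊤ := hB j (hp 0).1 h1 n
    obtain ⟨v, hv⟩ := ENat.ne_top_iff_exists.1 h2
    have h3 : ((v + 1 : ℕ) : ℕ∞) ≤ p.2 n := (hp (v + 1)).2.2
    rw [← hv] at h3
    have : v + 1 ≤ v := by exact_mod_cast h3
    omega
  choose v hv using hone
  refine ⟨(Finset.range (n + 1)).sup v, fun j hj p hp hi => ?_⟩
  have hle : v j ≤ (Finset.range (n + 1)).sup v :=
    Finset.le_sup (Finset.mem_range.2 (Nat.lt_succ_of_le hj))
  refine lt_of_lt_of_le (hv j p hp (fun i h => hi i (h.trans_le hle))) ?_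
  exact_mod_cast hle

theorem cnt_eq_card (c : ℕ → Bool) (n : ℕ) :
    cnt c n = ((Finset.range n).filter (fun i => c i = true)).card := by
  induction n with
  | zero => rfl
  | succ n ih =>
    rw [cnt, ih, Finset.range_add_one, Finset.filter_insert]
    split_ifs with h
    · rw [Finset.card_insert_of_notMem (by simp)]
    · rfl

section
variable {ι : Type} [LinearOrder ι] [WellFoundedLT ι] (f : ι → ℕ → ℕ) (L : ι → ℕ → ι)

theorem no_sigma (hmono : ∀ a b, a < b → f a ≤ᶠ[atTop] f b)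
    (hunb : ∀ g : ℕ → ℕ, ∃ a, ¬ f a ≤ᶠ[atTop] g)
    (hsmall : ∀ (a : ι) (h : ι → ℕ → ℕ), ∃ g : ℕ → ℕ, ∀ b ≤ a, h b ≤ᶠ[atTop] g)
    (hL : ∀ l, (∃ s : ℕ → ι, (∀ k, s k < l) ∧ ∀ b < l, ∃ k, b ≤ s k) → good L l)
    (F : ℕ → Set W) (hF : ∀ j, IsCompact (F j)) (hB : ∀ j, F j ⊆ BW)
    (hX : XW f L ⊆ ⋃ j, F j) : False := by
  classical
  choose V hV using exists_V hF hB
  have hPhi : ∀ b, ∃ g : ℕ → ℕ, ∀ x : ℕ → ℕ, x =ᶠ[atTop] f b → V x ≤ᶠ[atTop] g := by
    intro b
    obtain ⟨e, he⟩ := (countable_evEq (f b)).exists_eq_range ⟨f b, EventuallyEq.rfl⟩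
    obtain ⟨g, hg⟩ := countable_bound (fun k => V (e k))
    refine ⟨g, fun x hx => ?_⟩
    have : x ∈ range e := by rw [← he]; exact hx
    obtain ⟨k, rfl⟩ := this
    exact hg k
  choose Phi hPhi using hPhi
  have hPsi : ∀ a, ∃ g : ℕ → ℕ, ∀ b ≤ a, Phi b ≤ᶠ[atTop] g := fun a => hsmall a Phi
  choose Psi hPsi using hPsi
  have hle : ∀ a b, a ≤ b → f a ≤ᶠ[atTop] f b := by
    intro a b hab
    rcases hab.lt_or_eq with h | h
    · exact hmono _ _ h
    · rw [h]
  -- countable sets are strictly bounded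
  have hcb : ∀ s : ℕ → ι, ∃ b, ∀ k, s k < b := by
    intro s
    by_contra hcon
    push Not at hcon
    obtain ⟨g, hg⟩ := countable_bound (fun k => f (s k))
    obtain ⟨a, ha⟩ := hunb g
    obtain ⟨k, hk⟩ := hcon a
    exact ha ((hle _ _ hk).trans (hg k))
  have hstep : ∀ a, ∃ b, a < b ∧ ¬ f b ≤ᶠ[atTop] Psi a := by
    intro a
    obtain ⟨b1, hb1⟩ := hunb (Psi a)
    obtain ⟨b2, hb2⟩ := hcb (fun _ => max a b1)
    have h0 := hb2 0
    refine ⟨b2, (le_max_left _ _).trans_lt h0, fun hcon => hb1 ?_⟩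
    exact (hle _ _ ((le_max_right a b1).trans h0.le)).trans hcon
  choose step hstep1 hstep2 using hstep
  obtain ⟨a0, -⟩ := hunb 0
  let al : ℕ → ι := fun k => step^[k] a0
  have hal : ∀ k, al (k + 1) = step (al k) := fun k => Function.iterate_succ_apply' _ _ _
  obtain ⟨l, hl1, hl2⟩ := WellFounded.has_min (wellFounded_lt (α := ι)) {b | ∀ k, al k < b} (hcb al)
  have hl3 : ∀ b < l, ∃ k, b ≤ al k := by
    intro b hb
    by_contra hcon
    push Not at hcon
    exact hl2 b hcon hb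
  have hl1 : ∀ k, al k < l := hl1
  have hgood : good L l := hL l ⟨al, hl1, hl3⟩
  have hPhil : ∀ b < l, ¬ f l ≤ᶠ[atTop] Phi b := by
    intro b hb hcon
    obtain ⟨k, hk⟩ := hl3 b hb
    refine hstep2 (al k) ?_
    rw [← hal k]
    exact ((hmono _ _ (hl1 (k + 1))).trans hcon).trans (hPsi _ _ hk)
  -- states
  let Q : Finset ℕ → ℕ → ℕ := fun C n => G f L l ((C.filter (fun i => i ≤ n)).card) n
  have hQ : ∀ C, ∃ b < l, Q C =ᶠ[atTop] f b := by
    intro C
    obtain ⟨b, hb, hbn⟩ := G_eventually f L hmono hgood C.card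
    refine ⟨b, hb, ?_⟩
    filter_upwards [hbn, eventually_ge_atTop (C.sup id)] with n h1 h2
    have : C.filter (fun i => i ≤ n) = C := by
      refine Finset.filter_true_of_mem (fun i hi => ?_)
      exact (Finset.le_sup (f := id) hi).trans h2
    simp only [Q]
    rw [this, h1]
  have hpick : ∀ C t, ∃ n, t ≤ n ∧ V (Q C) n < f l n := by
    intro C t
    obtain ⟨b, hb, hbn⟩ := hQ C
    by_contra hcon
    push Not at hcon
    refine hPhil b hb ?_
    have h1 : f l ≤ᶠ[atTop] V (Q C) := by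
      filter_upwards [eventually_ge_atTop t] with n hn using hcon n hn
    exact h1.trans (hPhi b _ hbn)
  choose pick hpick1 hpick2 using hpick
  let nn : Finset ℕ → ℕ → ℕ := fun C k => pick C (max k (C.sup id + 1))
  let mm : Finset ℕ → ℕ → ℕ := fun C k => max (nn C k + 1) (V (Q C) (nn C k))
  let C : ℕ → Finset ℕ := fun k => Nat.rec ∅ (fun k C => insert (mm C k) C) k
  have hC0 : C 0 = ∅ := rfl
  have hCs : ∀ k, C (k + 1) = insert (mm (C k) k) (C k) := fun k => rfl
  let n : ℕ → ℕ := fun k => nn (C k) k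
  let m : ℕ → ℕ := fun k => mm (C k) k
  have hnk : ∀ k, k ≤ n k := fun k => (le_max_left _ _).trans (hpick1 (C k) _)
  have hnC : ∀ k, ∀ i ∈ C k, i < n k := by
    intro k i hi
    have h1 : i ≤ (C k).sup id := Finset.le_sup (f := id) hi
    have h2 : (C k).sup id + 1 ≤ n k := (le_max_right k _).trans (hpick1 (C k) _)
    omega
  have hnm : ∀ k, n k < m k := fun k => Nat.lt_of_succ_le (le_max_left _ _)
  have hVm : ∀ k, V (Q (C k)) (n k) ≤ m k := fun k => le_max_right _ _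
  have hmn : ∀ k, m k < n (k + 1) := by
    intro k
    refine hnC (k + 1) _ ?_
    rw [hCs]
    exact Finset.mem_insert_self _ _
  have hn_mono : StrictMono n := strictMono_nat_of_lt_succ (fun k => (hnm k).trans (hmn k))
  have hm_mono : StrictMono m := strictMono_nat_of_lt_succ (fun k => (hmn k).trans (hnm (k + 1)))
  have hCimg : ∀ k, C k = (Finset.range k).image m := by
    intro k
    induction k with
    | zero => rfl
    | succ k ih => rw [hCs, Finset.range_add_one, Finset.image_insert, ← ih]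
  let a : ℕ → Bool := fun i => decide (∃ k, n k = i)
  let c : ℕ → Bool := fun i => decide (∃ k, m k = i)
  have hDl : (a, c) ∈ Dl := by
    intro i j hij hi hj
    have hi : ∃ k, n k = i := by simpa [a] using hi
    have hj : ∃ k, n k = j := by simpa [a] using hj
    obtain ⟨k, rfl⟩ := hi
    obtain ⟨k', rfl⟩ := hj
    have hkk : k < k' := hn_mono.lt_iff_lt.1 hij
    refine ⟨m k, (hnm k).le, (hmn k).trans_le (hn_mono.monotone (Nat.succ_le_of_lt hkk)), ?_⟩
    simp only [c, decide_eq_true_eq]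
    exact ⟨k, rfl⟩
  have hx : ∀ k, ∀ i < m k, X1 f L l c i = Q (C k) i := by
    intro k i hi
    simp only [X1, Q]
    congr 1
    rw [cnt_eq_card]
    congr 1
    ext x
    simp only [Finset.mem_filter, Finset.mem_range, hCimg k, Finset.mem_image, c,
      decide_eq_true_eq]
    constructor
    · rintro ⟨h1, j, rfl⟩
      exact ⟨⟨j, hm_mono.lt_iff_lt.1 (by omega), rfl⟩, by omega⟩
    · rintro ⟨⟨j, h1, rfl⟩, h2⟩
      exact ⟨by omega, j, rfl⟩
  have hpX : pt f L l (a, c) ∈ ⋃ j, F j :=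
    hX (Or.inr (mem_biUnion (show l ∈ {l | good L l} from hgood) ⟨(a, c), hDl, rfl⟩))
  obtain ⟨j, hj⟩ := mem_iUnion.1 hpX
  have h1 := hV (Q (C j)) (n j) j (hnk j) _ hj (by
    intro i hi
    show ((X1 f L l c i : ℕ) : ℕ∞) = _
    rw [hx j i (hi.trans_le (hVm j))])
  have h2 : (pt f L l (a, c)).2 (n j) = ((f l (n j) : ℕ) : ℕ∞) := by
    show ((Z1 f l a (n j) : ℕ) : ℕ∞) = _
    have : a (n j) = true := by
      simp only [a, decide_eq_true_eq]
      exact ⟨j, rfl⟩
    rw [Z1, if_pos this]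
  rw [h2] at h1
  have h3 : f l (n j) < V (Q (C j)) (n j) := by exact_mod_cast h1
  have h4 : V (Q (C j)) (n j) < f l (n j) := hpick2 (C j) _
  omega

end


/-! ### The Hurewicz property -/

/-- An open cover of the space `Y`, the whole space not being a member. -/
def IsCover {Y : Type*} [TopologicalSpace Y] (𝒰 : Set (Set Y)) : Prop :=
  (∀ U ∈ 𝒰, IsOpen U) ∧ univ ∉ 𝒰 ∧ ⋃₀ 𝒰 = univ

/-- A `γ`-cover: an open cover, infinite, each point lying in all but finitely many members. -/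
def IsGammaCover {Y : Type*} [TopologicalSpace Y] (𝒱 : Set (Set Y)) : Prop :=
  IsCover 𝒱 ∧ 𝒱.Infinite ∧ ∀ y : Y, {V ∈ 𝒱 | y ∉ V}.Finite

/-- The Hurewicz property `U_fin(O, Γ)`. -/
def Hurewicz (Y : Type*) [TopologicalSpace Y] : Prop :=
  ∀ 𝒰 : ℕ → Set (Set Y), (∀ n, IsCover (𝒰 n)) →
    (∀ n, ∀ ℱ ⊆ 𝒰 n, ℱ.Finite → ⋃₀ ℱ ≠ univ) →
    ∃ ℱ : ℕ → Set (Set Y), (∀ n, ℱ n ⊆ 𝒰 n ∧ (ℱ n).Finite) ∧
      IsGammaCover (range fun n => ⋃₀ ℱ n)

/-- working form of the Hurewicz property -/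
def Hur (Y : Type*) [TopologicalSpace Y] : Prop :=
  ∀ 𝒰 : ℕ → Set (Set Y), (∀ n, (∀ U ∈ 𝒰 n, IsOpen U) ∧ ⋃₀ 𝒰 n = univ) →
    ∃ ℱ : ℕ → Set (Set Y), (∀ n, ℱ n ⊆ 𝒰 n ∧ (ℱ n).Finite) ∧ ∀ y, ∀ᶠ n in atTop, y ∈ ⋃₀ ℱ n

theorem Hur.hurewicz {Y : Type*} [TopologicalSpace Y] (h : Hur Y) : Hurewicz Y := by
  intro 𝒰 h𝒰 hfin
  obtain ⟨ℱ, hℱ, hev⟩ := h 𝒰 (fun n => ⟨(h𝒰 n).1, (h𝒰 n).2.2⟩)
  have hne : ∀ n, ⋃₀ ℱ n ≠ univ := fun n => hfin n _ (hℱ n).1 (hℱ n).2
  refine ⟨ℱ, hℱ, ⟨?_, ?_, ?_⟩, ?_, ?_⟩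
  · rintro _ ⟨n, rfl⟩
    exact isOpen_sUnion (fun U hU => (h𝒰 n).1 U ((hℱ n).1 hU))
  · rintro ⟨n, hn⟩
    exact hne n hn
  · refine eq_univ_of_forall fun y => ?_
    obtain ⟨n, hn⟩ := (hev y).exists
    exact mem_sUnion.2 ⟨_, ⟨n, rfl⟩, hn⟩
  · intro hfinite
    have hall : ∀ᶠ n in atTop, ∀ V ∈ range (fun n => ⋃₀ ℱ n), ∃ y, y ∉ V ∧ y ∈ ⋃₀ ℱ n := by
      refine hfinite.eventually_all.2 ?_
      rintro _ ⟨m, rfl⟩
      obtain ⟨y, hy⟩ := (ne_univ_iff_exists_notMem _).1 (hne m)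
      filter_upwards [hev y] with n hn using ⟨y, hy, hn⟩
    obtain ⟨n, hn⟩ := hall.exists
    obtain ⟨y, hy1, hy2⟩ := hn _ ⟨n, rfl⟩
    exact hy1 hy2
  · intro y
    obtain ⟨N, hN⟩ := eventually_atTop.1 (hev y)
    refine ((finite_Iio N).image (fun n => ⋃₀ ℱ n)).subset ?_
    rintro _ ⟨⟨n, rfl⟩, hn⟩
    refine ⟨n, ?_, rfl⟩
    by_contra hcon
    exact hn (hN n (not_lt.1 hcon))

theorem Hur.of_surjective {Y Z : Type*} [TopologicalSpace Y] [TopologicalSpace Z] (h : Hur Y)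
    {g : Y → Z} (hg : Continuous g) (hs : Function.Surjective g) : Hur Z := by
  intro 𝒰 h𝒰
  obtain ⟨ℱ, hℱ, hev⟩ := h (fun n => (fun U => g ⁻¹' U) '' 𝒰 n) (by
    intro n
    refine ⟨?_, eq_univ_of_forall fun y => ?_⟩
    · rintro _ ⟨U, hU, rfl⟩
      exact ((h𝒰 n).1 U hU).preimage hg
    · have : g y ∈ ⋃₀ 𝒰 n := by rw [(h𝒰 n).2]; trivial
      obtain ⟨U, hU, hy⟩ := this
      exact ⟨g ⁻¹' U, ⟨U, hU, rfl⟩, hy⟩)
  have hex : ∀ n, ∃ 𝒢 : Set (Set Z), 𝒢 ⊆ 𝒰 n ∧ 𝒢.Finite ∧ (fun U => g ⁻¹' U) '' 𝒢 = ℱ n := by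
    intro n
    obtain ⟨𝒢, h1, h2, h3⟩ := Set.exists_subset_image_finite_and.1
      (⟨ℱ n, (hℱ n).1, (hℱ n).2, rfl⟩ : ∃ t, t ⊆ (fun U => g ⁻¹' U) '' 𝒰 n ∧ t.Finite ∧ t = ℱ n)
    exact ⟨𝒢, h1, h2, h3⟩
  choose 𝒢 h1 h2 h3 using hex
  refine ⟨𝒢, fun n => ⟨h1 n, h2 n⟩, fun z => ?_⟩
  obtain ⟨y, rfl⟩ := hs z
  filter_upwards [hev y] with n hn
  rw [← h3 n] at hn
  obtain ⟨_, ⟨U, hU, rfl⟩, hy⟩ := hn
  exact ⟨U, hU, hy⟩

theorem hur_of_crit {X : Set W} (hne : X.Nonempty)
    (h : ∀ U : ℕ → ℕ → Set W, (∀ n m, IsOpen (U n m)) → (∀ n, Monotone (U n)) →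
      (∀ n, X ⊆ ⋃ m, U n m) → ∃ k : ℕ → ℕ, ∀ p ∈ X, ∀ᶠ n in atTop, p ∈ U n (k n)) : Hur X := by
  intro 𝒰 h𝒰
  have hex : ∀ n, ∃ e : ℕ → Set X, (∀ i, e i ∈ 𝒰 n) ∧ ⋃ i, e i = univ := by
    intro n
    obtain ⟨T, hT1, hT2, hT3⟩ := TopologicalSpace.isOpen_sUnion_countable (𝒰 n) (h𝒰 n).1
    have hTne : T.Nonempty := by
      rw [(h𝒰 n).2] at hT3
      obtain ⟨x, hx⟩ := hne
      have : (⟨x, hx⟩ : X) ∈ ⋃₀ T := by rw [hT3]; trivial
      obtain ⟨t, ht, -⟩ := this
      exact ⟨t, ht⟩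
    obtain ⟨e, rfl⟩ := hT1.exists_eq_range hTne
    refine ⟨e, fun i => hT2 ⟨i, rfl⟩, ?_⟩
    rw [← sUnion_range, hT3, (h𝒰 n).2]
  choose e he1 he2 using hex
  have hO : ∀ n i, ∃ O : Set W, IsOpen O ∧ (Subtype.val ⁻¹' O : Set X) = e n i := fun n i =>
    isOpen_induced_iff.1 ((h𝒰 n).1 _ (he1 n i))
  choose O hO1 hO2 using hO
  obtain ⟨k, hk⟩ := h (fun n m => ⋃ i ∈ Iic m, O n i)
    (fun n m => isOpen_biUnion fun i _ => hO1 n i)
    (fun n a b hab => biUnion_subset_biUnion_left (Iic_subset_Iic.2 hab))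
    (by
      intro n p hp
      have : (⟨p, hp⟩ : X) ∈ ⋃ i, e n i := by rw [he2 n]; trivial
      obtain ⟨i, hi⟩ := mem_iUnion.1 this
      rw [← hO2 n i] at hi
      exact mem_iUnion.2 ⟨i, mem_biUnion (show i ∈ Iic i from le_refl i) hi⟩)
  refine ⟨fun n => e n '' Iic (k n), fun n => ⟨?_, (finite_Iic _).image _⟩, fun y => ?_⟩
  · rintro _ ⟨i, -, rfl⟩
    exact he1 n i
  · filter_upwards [hk y.1 y.2] with n hn
    simp only [mem_iUnion, exists_prop] at hn
    obtain ⟨i, hi, hy⟩ := hn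
    refine ⟨e n i, ⟨i, hi, rfl⟩, ?_⟩
    rw [← hO2 n i]
    exact hy

/-! ### Embedding into the real line -/

theorem isClopen_Ici_nat (k : ℕ) : IsClopen (Ici (k : ℕ∞)) := by
  refine ⟨isClosed_Ici, ?_⟩
  cases k with
  | zero =>
    have : Ici ((0 : ℕ) : ℕ∞) = univ := by ext x; simp
    rw [this]
    exact isOpen_univ
  | succ k =>
    have : Ici ((k + 1 : ℕ) : ℕ∞) = Ioi (k : ℕ∞) := by
      ext x
      simp only [mem_Ici, mem_Ioi, Nat.cast_add, Nat.cast_one]
      exact ENat.add_one_le_iff (ENat.natCast_ne_top _)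
    rw [this]
    exact isOpen_Ioi

theorem exists_embedding : ∃ j : W → ℝ, Topology.IsClosedEmbedding j := by
  obtain ⟨σ⟩ : Nonempty (ℕ ≃ Bool × ℕ × ℕ) := nonempty_equiv_of_countable
  let J : W → (ℕ → Bool) := fun w i =>
    (Ici (((σ i).2.2 : ℕ) : ℕ∞)).boolIndicator (if (σ i).1 = true then w.1 (σ i).2.1 else
      w.2 (σ i).2.1)
  have hJ : Continuous J := by
    refine continuous_pi fun i => ?_
    refine ((continuous_boolIndicator_iff_isClopen _).2 (isClopen_Ici_nat _)).comp ?_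
    by_cases h : (σ i).1 = true
    · simp only [h, if_true]
      exact (continuous_apply _).comp continuous_fst
    · simp only [h]
      exact (continuous_apply _).comp continuous_snd
  have hinj : Function.Injective J := by
    intro w w' h
    have key : ∀ (s : Bool) (n k : ℕ), (Ici (k : ℕ∞)).boolIndicator
        (if s = true then w.1 n else w.2 n) = (Ici (k : ℕ∞)).boolIndicator
        (if s = true then w'.1 n else w'.2 n) := by
      intro s n k
      have := congrFun h (σ.symm (s, n, k))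
      simpa [J] using this
    have hk : ∀ (x y : ℕ∞), (∀ k : ℕ, (Ici (k : ℕ∞)).boolIndicator x =
        (Ici (k : ℕ∞)).boolIndicator y) → x = y := by
      intro x y hxy
      refine ENat.eq_of_forall_natCast_le_iff fun k => ?_
      have h1 := hxy k
      have h2 : x ∈ Ici (k : ℕ∞) ↔ y ∈ Ici (k : ℕ∞) := by
        rw [mem_iff_boolIndicator, mem_iff_boolIndicator, h1]
      exact h2
    refine Prod.ext (funext fun n => hk _ _ fun k => ?_) (funext fun n => hk _ _ fun k => ?_)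
    · simpa using key true n k
    · simpa using key false n k
  refine ⟨fun w => (cantorSetHomeomorphNatToBool.symm (J w) : ℝ), ?_⟩
  refine Continuous.isClosedEmbedding ?_ ?_
  · exact continuous_subtype_val.comp (cantorSetHomeomorphNatToBool.symm.continuous.comp hJ)
  · exact Subtype.val_injective.comp (cantorSetHomeomorphNatToBool.symm.injective.comp hinj)

theorem BW_eq : BW = ⋂ n : ℕ, ⋃ m : ℕ, ({p : W | p.1 m = ⊤} ∪ {p : W | p.2 n ≤ (m : ℕ∞)}) := by
  ext p
  simp only [BW, mem_ofPred_eq, mem_iInter, mem_iUnion, mem_union]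
  constructor
  · intro h n
    by_cases h1 : ∀ n, p.1 n ≠ ⊤
    · obtain ⟨m, hm⟩ := ENat.ne_top_iff_exists.1 (h h1 n)
      exact ⟨m, Or.inr hm.ge⟩
    · push Not at h1
      obtain ⟨m, hm⟩ := h1
      exact ⟨m, Or.inl hm⟩
  · intro h h1 n
    obtain ⟨m, hm | hm⟩ := h n
    · exact absurd hm (h1 m)
    · exact ne_top_of_le_ne_top (ENat.natCast_ne_top m) hm

/-- There are an `F_σδ` (in particular Borel) set `B` of reals and a subset `X` of `B` with the
Hurewicz property such that no `σ`-compact set lies between `X` and `B`. -/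
theorem result : ∃ B X : Set ℝ,
    (∃ C : ℕ → ℕ → Set ℝ, (∀ n m, IsClosed (C n m)) ∧ B = ⋂ n, ⋃ m, C n m) ∧
    MeasurableSet B ∧ X ⊆ B ∧ Hurewicz X ∧
    ¬ ∃ F : Set ℝ, IsSigmaCompact F ∧ X ⊆ F ∧ F ⊆ B := by
  classical
  obtain ⟨ι, _, _, f, hmono, hunb, hsmall⟩ := exists_scale
  obtain ⟨j, hj⟩ := exists_embedding
  have hLex : ∀ l : ι, ∃ s : ℕ → ι, (∃ s : ℕ → ι, (∀ k, s k < l) ∧ ∀ b < l, ∃ k, b ≤ s k) →
      (∀ k, s k < l) ∧ ∀ b < l, ∃ k, b ≤ s k := by
    intro l
    by_cases h : ∃ s : ℕ → ι, (∀ k, s k < l) ∧ ∀ b < l, ∃ k, b ≤ s k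
    · obtain ⟨s, hs⟩ := h
      exact ⟨s, fun _ => hs⟩
    · exact ⟨fun _ => l, fun h' => absurd h' h⟩
  choose L hL using hLex
  have hL' : ∀ l, (∃ s : ℕ → ι, (∀ k, s k < l) ∧ ∀ b < l, ∃ k, b ≤ s k) → good L l := hL
  have hBC : (∃ C : ℕ → ℕ → Set ℝ, (∀ n m, IsClosed (C n m)) ∧ j '' BW = ⋂ n, ⋃ m, C n m) := by
    refine ⟨fun n m => j '' ({p : W | p.1 m = ⊤} ∪ {p : W | p.2 n ≤ (m : ℕ∞)}), ?_, ?_⟩
    · intro n m
      refine hj.isClosedMap _ (IsClosed.union ?_ ?_)
      · exact isClosed_eq ((continuous_apply m).comp continuous_fst) continuous_const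
      · exact isClosed_le ((continuous_apply n).comp continuous_snd) continuous_const
    · rw [BW_eq, hj.injective.injOn.image_iInter_eq]
      simp only [image_iUnion]
  refine ⟨j '' BW, j '' XW f L, hBC, ?_, image_mono (XW_subset_BW f L), ?_, ?_⟩
  · obtain ⟨C, hC, hCB⟩ := hBC
    rw [hCB]
    exact MeasurableSet.iInter fun n => MeasurableSet.iUnion fun m => (hC n m).measurableSet
  · have hne : (XW f L).Nonempty := ⟨(fun _ => ⊤, fun _ => 0), Or.inl ⟨0, rfl⟩⟩
    have h1 : Hur (XW f L) := hur_of_crit hne (hurewicz_crit f L hmono hunb hsmall)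
    let h := hj.isEmbedding.homeomorphImage (XW f L)
    exact (h1.of_surjective h.continuous h.surjective).hurewicz
  · rintro ⟨F, ⟨Kc, hKc, hKF⟩, hXF, hFB⟩
    refine no_sigma f L hmono hunb hsmall hL' (fun n => j ⁻¹' (Kc n))
      (fun n => hj.isCompact_preimage (hKc n)) ?_ ?_
    · intro n p hp
      have : j p ∈ j '' BW := hFB (hKF ▸ mem_iUnion.2 ⟨n, hp⟩)
      exact (hj.injective.mem_set_image).1 this
    · intro p hp
      have h1 : j p ∈ F := hXF ⟨p, hp, rfl⟩
      rw [← hKF] at h1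
      obtain ⟨n, hn⟩ := mem_iUnion.1 h1
      exact mem_iUnion.2 ⟨n, hn⟩

end Pool.Agent.Results.MP_cf3fbb_gt.NoSigmaCompact
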